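import Pool.Agent.Lib.MP_acafa7_al.MS.H47.FanG

namespace MSG.H47

open Classical

theorem sin_ang_pos {a b c : ℝ} (h : Tr a b c) : 0 < Real.sin (ang a b c) := by
  have ha := h.px
  have hb := h.py
  have hc := h.pz
  have h1 := h.hx
  have h2 := h.hy
  have h3 := h.hz
  have hab : 0 < 2 * a * b := by positivity
  unfold ang
  rw [Real.sin_arccos]
  apply Real.sqrt_pos.2
  have e1 : -1 < (a ^ 2 + b ^ 2 - c ^ 2) / (2 * a * b) := by
    rw [lt_div_iff₀ hab]
    nlinarith [mul_pos (sub_pos.2 h3) (by positivity : 0 < a + b + c)]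
  have e2 : (a ^ 2 + b ^ 2 - c ^ 2) / (2 * a * b) < 1 := by
    rw [div_lt_iff₀ hab]
    nlinarith [mul_pos (sub_pos.2 h1) (sub_pos.2 h2)]
  nlinarith

/-- points of the hull of three points -/
theorem hull3 {A B Z p : ℂ} : p ∈ convexHull ℝ {A, B, Z} ↔ ∃ r s t : ℝ, 0 ≤ r ∧ 0 ≤ s ∧ 0 ≤ t ∧
    r + s + t = 1 ∧ p.re = r * A.re + s * B.re + t * Z.re ∧
      p.im = r * A.im + s * B.im + t * Z.im := by
  constructor
  · intro hp
    have hconv : Convex ℝ {p : ℂ | ∃ r s t : ℝ, 0 ≤ r ∧ 0 ≤ s ∧ 0 ≤ t ∧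
        r + s + t = 1 ∧ p.re = r * A.re + s * B.re + t * Z.re ∧
        p.im = r * A.im + s * B.im + t * Z.im} := by
      rintro p ⟨r, s, t, hr, hs, ht, hsum, hre, him⟩ q ⟨r', s', t', hr', hs', ht', hsum', hre', him'⟩
        u u' hu hu' huu
      refine ⟨u * r + u' * r', u * s + u' * s', u * t + u' * t', by positivity, by positivity,
        by positivity, ?_, ?_, ?_⟩
      · have : u * r + u' * r' + (u * s + u' * s') + (u * t + u' * t') =
            u * (r + s + t) + u' * (r' + s' + t') := by ring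
        rw [this, hsum, hsum']
        linarith
      · simp only [Complex.add_re, Complex.smul_re, smul_eq_mul, hre, hre']
        ring
      · simp only [Complex.add_im, Complex.smul_im, smul_eq_mul, him, him']
        ring
    refine convexHull_min ?_ hconv hp
    intro z hz
    simp only [Set.mem_insert_iff, Set.mem_singleton_iff] at hz
    rcases hz with rfl | rfl | rfl
    · exact ⟨1, 0, 0, by norm_num, le_refl _, le_refl _, by norm_num, by ring, by ring⟩
    · exact ⟨0, 1, 0, le_refl _, by norm_num, le_refl _, by norm_num, by ring, by ring⟩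
    · exact ⟨0, 0, 1, le_refl _, le_refl _, by norm_num, by norm_num, by ring, by ring⟩
  · rintro ⟨r, s, t, hr, hs, ht, hsum, hre, him⟩
    have h := (convex_convexHull ℝ ({A, B, Z} : Set ℂ)).sum_mem (t := Finset.univ)
      (w := ![r, s, t]) (z := ![A, B, Z]) (by
        intro i _
        fin_cases i <;> simpa) (by simp [Fin.sum_univ_three, hsum]) (by
        intro i _
        apply subset_convexHull
        fin_cases i <;> simp)
    have e : p = ∑ i, (![r, s, t] : Fin 3 → ℝ) i • (![A, B, Z] : Fin 3 → ℂ) i := by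
      simp only [Fin.sum_univ_three, Matrix.cons_val_zero, Matrix.cons_val_one, Matrix.cons_val]
      apply Complex.ext
      · simp [hre]
      · simp [him]
    rw [e]
    exact h

/-- coordinates of the quadrilateral: `x = (x1, x2)`, `y = (y1, -y2)` -/
structure Co (c x1 x2 y1 y2 : ℝ) : Prop where
  c0 : 0 < c
  x0 : 0 < x2
  y0 : 0 < y2
  l : 0 < x2 * y1 + y2 * x1
  r : 0 < x2 * (c - y1) + y2 * (c - x1)

theorem ang_pos {a b c : ℝ} (h : Tr a b c) : 0 < ang a b c := by
  have ha := h.px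
  have hb := h.py
  have hc := h.pz
  have h1 := h.hx
  have h2 := h.hy
  have hab : 0 < 2 * a * b := by positivity
  unfold ang
  rw [Real.arccos_pos, div_lt_iff₀ hab]
  nlinarith [mul_pos (sub_pos.2 h1) (sub_pos.2 h2)]

theorem same_height {a b A B : ℝ} (ha : 0 < a) (hb : 0 < b) (hA : 0 < Real.sin A)
    (hB : 0 < Real.sin B)
    (h : a ^ 2 - (a * Real.cos A) ^ 2 = b ^ 2 - (b * Real.cos B) ^ 2) :
    a * Real.sin A = b * Real.sin B := by
  have h2 : (a * Real.sin A) ^ 2 = (b * Real.sin B) ^ 2 := by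
    have pA := Real.sin_sq_add_cos_sq A
    have pB := Real.sin_sq_add_cos_sq B
    linear_combination a ^ 2 * pA - b ^ 2 * pB + h
  have h3 : 0 ≤ a * Real.sin A := by positivity
  have h4 : 0 ≤ b * Real.sin B := by positivity
  exact (sq_eq_sq₀ h3 h4).1 h2

theorem coords_aux {c a1 a2 b1 b2 L α β α' β' : ℝ} (hc : 0 < c) (ha1 : 0 < a1) (ha2 : 0 < a2)
    (hb1 : 0 < b1) (hb2 : 0 < b2)
    (hα : 0 < α) (hβ : 0 < β) (hα' : 0 < α') (hβ' : 0 < β')
    (sα : 0 < Real.sin α) (sβ : 0 < Real.sin β) (sα' : 0 < Real.sin α') (sβ' : 0 < Real.sin β')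
    (hsv : α + β < Real.pi) (hsw : α' + β' < Real.pi)
    (cα : Real.cos α = (c ^ 2 + a2 ^ 2 - a1 ^ 2) / (2 * c * a2))
    (cβ : Real.cos β = (b1 ^ 2 + c ^ 2 - b2 ^ 2) / (2 * b1 * c))
    (cα' : Real.cos α' = (a1 ^ 2 + c ^ 2 - a2 ^ 2) / (2 * a1 * c))
    (cβ' : Real.cos β' = (c ^ 2 + b2 ^ 2 - b1 ^ 2) / (2 * c * b2))
    (hcos : L ^ 2 = a2 ^ 2 + b1 ^ 2 - 2 * a2 * b1 * Real.cos (α + β)) :
    ∃ x1 x2 y1 y2 : ℝ, Co c x1 x2 y1 y2 ∧ x1 ^ 2 + x2 ^ 2 = a2 ^ 2 ∧
      (c - x1) ^ 2 + x2 ^ 2 = a1 ^ 2 ∧ y1 ^ 2 + y2 ^ 2 = b1 ^ 2 ∧ (c - y1) ^ 2 + y2 ^ 2 = b2 ^ 2 ∧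
      (x1 - y1) ^ 2 + (x2 + y2) ^ 2 = L ^ 2 := by
  have pα := Real.sin_sq_add_cos_sq α
  have pβ := Real.sin_sq_add_cos_sq β
  have ex1 : 2 * c * (a2 * Real.cos α) = c ^ 2 + a2 ^ 2 - a1 ^ 2 := by
    rw [cα]; field_simp
  have ex1' : c - a2 * Real.cos α = a1 * Real.cos α' := by
    rw [cα, cα']; field_simp; ring
  have ey1 : 2 * c * (b1 * Real.cos β) = c ^ 2 + b1 ^ 2 - b2 ^ 2 := by
    rw [cβ]; field_simp; ring
  have ey1' : c - b1 * Real.cos β = b2 * Real.cos β' := by
    rw [cβ, cβ']; field_simp; ring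
  have ex2 : a2 * Real.sin α = a1 * Real.sin α' := by
    apply same_height ha2 ha1 sα sα'
    rw [← ex1']
    linear_combination -ex1
  have ey2 : b1 * Real.sin β = b2 * Real.sin β' := by
    apply same_height hb1 hb2 sβ sβ'
    rw [← ey1']
    linear_combination -ey1
  refine ⟨a2 * Real.cos α, a2 * Real.sin α, b1 * Real.cos β, b1 * Real.sin β,
    ⟨hc, by positivity, by positivity, ?_, ?_⟩, ?_, ?_, ?_, ?_, ?_⟩
  · have e : a2 * Real.sin α * (b1 * Real.cos β) + b1 * Real.sin β * (a2 * Real.cos α) =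
        a2 * b1 * Real.sin (α + β) := by rw [Real.sin_add]; ring
    rw [e]
    have : 0 < Real.sin (α + β) := Real.sin_pos_of_pos_of_lt_pi (by linarith) hsv
    positivity
  · rw [ex1', ey1', ex2, ey2]
    have e : a1 * Real.sin α' * (b2 * Real.cos β') + b2 * Real.sin β' * (a1 * Real.cos α') =
        a1 * b2 * Real.sin (α' + β') := by rw [Real.sin_add]; ring
    rw [e]
    have : 0 < Real.sin (α' + β') := Real.sin_pos_of_pos_of_lt_pi (by linarith) hsw
    positivity
  · linear_combination a2 ^ 2 * pα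
  · linear_combination a2 ^ 2 * pα - ex1
  · linear_combination b1 ^ 2 * pβ
  · linear_combination b1 ^ 2 * pβ - ey1
  · rw [Real.cos_add] at hcos
    linear_combination a2 ^ 2 * pα + b1 ^ 2 * pβ - hcos

theorem coords {c a1 a2 b1 b2 L : ℝ} (h : QH c a1 a2 b1 b2) (hL : QL c a1 a2 b1 b2 L) :
    ∃ x1 x2 y1 y2 : ℝ, Co c x1 x2 y1 y2 ∧ x1 ^ 2 + x2 ^ 2 = a2 ^ 2 ∧
      (c - x1) ^ 2 + x2 ^ 2 = a1 ^ 2 ∧ y1 ^ 2 + y2 ^ 2 = b1 ^ 2 ∧ (c - y1) ^ 2 + y2 ^ 2 = b2 ^ 2 ∧
      (x1 - y1) ^ 2 + (x2 + y2) ^ 2 = L ^ 2 := by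
  have tα : Tr c a2 a1 := ⟨h.ta.px, h.ta.pz, h.ta.py, by linarith [h.ta.hx],
    h.ta.hz, h.ta.hy⟩
  have tβ : Tr b1 c b2 := Tr.swap h.tb
  have tα' : Tr a1 c a2 := Tr.swap h.ta
  have tβ' : Tr c b2 b1 := ⟨h.tb.px, h.tb.pz, h.tb.py, by linarith [h.tb.hx],
    h.tb.hz, h.tb.hy⟩
  exact coords_aux h.ta.px h.ta.py h.ta.pz h.tb.py h.tb.pz (ang_pos tα) (ang_pos tβ)
    (ang_pos tα') (ang_pos tβ') (sin_ang_pos tα) (sin_ang_pos tβ) (sin_ang_pos tα')
    (sin_ang_pos tβ') h.sv h.sw (cos_ang tα) (cos_ang tβ) (cos_ang tα') (cos_ang tβ') hL.cos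

theorem mem_up {c x1 x2 y1 y2 : ℝ} (h : Co c x1 x2 y1 y2) {p : ℂ} :
    p ∈ convexHull ℝ {(0 : ℂ), (c : ℂ), ⟨x1, x2⟩} ↔
      0 ≤ p.im ∧ p.im * x1 ≤ p.re * x2 ∧ p.im * (c - x1) ≤ (c - p.re) * x2 := by
  have hc := h.c0
  have hx := h.x0
  rw [hull3]
  constructor
  · rintro ⟨r, s, t, hr, hs, ht, hsum, hre, him⟩
    simp only [Complex.zero_re, Complex.zero_im, Complex.ofReal_re, Complex.ofReal_im] at hre him
    have hr' : r = 1 - s - t := by linarith
    refine ⟨by rw [him]; positivity, ?_, ?_⟩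
    · rw [hre, him]
      have : 0 ≤ s * c * x2 := by positivity
      nlinarith
    · rw [hre, him]
      have : 0 ≤ r * c * x2 := by positivity
      rw [hr'] at this
      nlinarith
  · rintro ⟨h1, h2, h3⟩
    refine ⟨((c - p.re) * x2 - p.im * (c - x1)) / (c * x2), (p.re * x2 - p.im * x1) / (c * x2),
      p.im / x2, div_nonneg (by linarith) (by positivity), div_nonneg (by linarith) (by positivity),
      by positivity, ?_, ?_, ?_⟩
    · field_simp
      ring
    · simp only [Complex.zero_re, Complex.ofReal_re]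
      field_simp
      ring
    · simp only [Complex.zero_im, Complex.ofReal_im]
      field_simp
      ring

theorem mem_dn {c x1 x2 y1 y2 : ℝ} (h : Co c x1 x2 y1 y2) {p : ℂ} :
    p ∈ convexHull ℝ {(c : ℂ), (0 : ℂ), ⟨y1, -y2⟩} ↔
      p.im ≤ 0 ∧ -p.im * y1 ≤ p.re * y2 ∧ -p.im * (c - y1) ≤ (c - p.re) * y2 := by
  have hc := h.c0
  have hy := h.y0
  rw [hull3]
  constructor
  · rintro ⟨r, s, t, hr, hs, ht, hsum, hre, him⟩
    simp only [Complex.zero_re, Complex.zero_im, Complex.ofReal_re, Complex.ofReal_im] at hre him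
    have hs' : s = 1 - r - t := by linarith
    have hty : 0 ≤ t * y2 := by positivity
    refine ⟨by rw [him]; linarith, ?_, ?_⟩
    · rw [hre, him]
      have : 0 ≤ r * c * y2 := by positivity
      nlinarith
    · rw [hre, him]
      have : 0 ≤ s * c * y2 := by positivity
      rw [hs'] at this
      nlinarith
  · rintro ⟨h1, h2, h3⟩
    refine ⟨(p.re * y2 + p.im * y1) / (c * y2), ((c - p.re) * y2 + p.im * (c - y1)) / (c * y2),
      -p.im / y2, div_nonneg (by linarith) (by positivity), div_nonneg (by linarith) (by positivity),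
      div_nonneg (by linarith) hy.le, ?_, ?_, ?_⟩
    · field_simp
      ring
    · simp only [Complex.zero_re, Complex.ofReal_re]
      field_simp
      ring
    · simp only [Complex.zero_im, Complex.ofReal_im]
      field_simp
      ring

theorem seg_real {c s : ℝ} (hc : 0 < c) : seg (0 : ℂ) (c : ℂ) s = (s : ℂ) := by
  unfold seg
  have : dist (0 : ℂ) (c : ℂ) = c := by
    rw [Complex.dist_eq, zero_sub, norm_neg, Complex.norm_real, Real.norm_of_nonneg hc.le]
  rw [this, zero_add, sub_zero, ← Complex.ofReal_mul]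
  congr 1
  field_simp

theorem cross {c x1 x2 y1 y2 : ℝ} (h : Co c x1 x2 y1 y2) {p q : ℂ}
    (hp : p ∈ convexHull ℝ {(0 : ℂ), (c : ℂ), ⟨x1, x2⟩})
    (hq : q ∈ convexHull ℝ {(c : ℂ), (0 : ℂ), ⟨y1, -y2⟩}) :
    ∃ s : ℝ, 0 ≤ s ∧ s ≤ c ∧ dist p (s : ℂ) + dist (s : ℂ) q = dist p q := by
  have hc := h.c0
  have hx := h.x0
  have hy := h.y0
  obtain ⟨p0, p1, p2⟩ := (mem_up h).1 hp
  obtain ⟨q0, q1, q2⟩ := (mem_dn h).1 hq
  rcases eq_or_lt_of_le p0 with hp0 | hp0
  · -- p is real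
    rw [← hp0] at p1 p2
    have h1 : 0 ≤ p.re := by
      by_contra hneg
      push Not at hneg
      nlinarith
    have h2 : p.re ≤ c := by
      by_contra hneg
      push Not at hneg
      nlinarith
    refine ⟨p.re, h1, h2, ?_⟩
    have e : ((p.re : ℝ) : ℂ) = p := Complex.ext (by simp) (by simp [← hp0])
    rw [e, dist_self, zero_add]
  · have hd : 0 < p.im - q.im := by linarith
    have hl := h.l
    have hr := h.r
    -- the crossing point
    have hnum : 0 ≤ p.im * q.re + -q.im * p.re := by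
      have hxy : 0 < x2 * y2 := by positivity
      have : 0 ≤ (x2 * y2) * (p.im * q.re + -q.im * p.re) := by
        have e1 : p.im * x2 * (-q.im * y1) ≤ p.im * x2 * (q.re * y2) :=
          mul_le_mul_of_nonneg_left q1 (by positivity)
        have e2 : -q.im * y2 * (p.im * x1) ≤ -q.im * y2 * (p.re * x2) :=
          mul_le_mul_of_nonneg_left p1 (mul_nonneg (by linarith) hy.le)
        have e3 : 0 ≤ p.im * (-q.im) * (x2 * y1 + y2 * x1) :=
          mul_nonneg (mul_nonneg hp0.le (by linarith)) hl.le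
        nlinarith
      exact nonneg_of_mul_nonneg_right this hxy
    have hnum2 : 0 ≤ p.im * (c - q.re) + -q.im * (c - p.re) := by
      have hxy : 0 < x2 * y2 := by positivity
      have : 0 ≤ (x2 * y2) * (p.im * (c - q.re) + -q.im * (c - p.re)) := by
        have e1 : p.im * x2 * (-q.im * (c - y1)) ≤ p.im * x2 * ((c - q.re) * y2) :=
          mul_le_mul_of_nonneg_left q2 (by positivity)
        have e2 : -q.im * y2 * (p.im * (c - x1)) ≤ -q.im * y2 * ((c - p.re) * x2) :=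
          mul_le_mul_of_nonneg_left p2 (mul_nonneg (by linarith) hy.le)
        have e3 : 0 ≤ p.im * (-q.im) * (x2 * (c - y1) + y2 * (c - x1)) :=
          mul_nonneg (mul_nonneg hp0.le (by linarith)) hr.le
        nlinarith
      exact nonneg_of_mul_nonneg_right this hxy
    refine ⟨(p.im * q.re + -q.im * p.re) / (p.im - q.im), div_nonneg hnum hd.le, ?_, ?_⟩
    · rw [div_le_iff₀ hd]
      nlinarith
    · apply dist_add_dist_of_mem_segment
      refine ⟨-q.im / (p.im - q.im), p.im / (p.im - q.im), div_nonneg (by linarith) hd.le,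
        div_nonneg hp0.le hd.le, ?_, ?_⟩
      · field_simp
        ring
      · apply Complex.ext
        · simp only [Complex.add_re, Complex.smul_re, smul_eq_mul, Complex.ofReal_re]
          field_simp
          ring
        · simp only [Complex.add_im, Complex.smul_im, smul_eq_mul, Complex.ofReal_im]
          field_simp
          ring

/-- the hull of the four points is covered by the two triangles -/
theorem cover {c x1 x2 y1 y2 : ℝ} (h : Co c x1 x2 y1 y2) {p : ℂ} {lv lw lx ly : ℝ}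
    (h1 : 0 ≤ lv) (h2 : 0 ≤ lw) (h3 : 0 ≤ lx) (h4 : 0 ≤ ly) (hs : lv + lw + lx + ly = 1)
    (hre : p.re = lw * c + lx * x1 + ly * y1) (him : p.im = lx * x2 - ly * y2) :
    p ∈ (convexHull ℝ {(0 : ℂ), (c : ℂ), ⟨x1, x2⟩} ∪
      convexHull ℝ {(c : ℂ), (0 : ℂ), ⟨y1, -y2⟩} : Set ℂ) := by
  have hc := h.c0
  have hx := h.x0
  have hy := h.y0
  have hl := h.l
  have hr := h.r
  have hlv : lv = 1 - lw - lx - ly := by linarith
  rcases le_total 0 p.im with h0 | h0
  · left
    rw [mem_up h]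
    refine ⟨h0, ?_, ?_⟩
    · rw [hre, him]
      have e1 : 0 ≤ ly * (x2 * y1 + y2 * x1) := mul_nonneg h4 hl.le
      have e2 : 0 ≤ lw * c * x2 := by positivity
      nlinarith
    · rw [hre, him]
      have e1 : 0 ≤ ly * (x2 * (c - y1) + y2 * (c - x1)) := mul_nonneg h4 hr.le
      have e2 : 0 ≤ lv * c * x2 := by positivity
      rw [hlv] at e2
      nlinarith
  · right
    rw [mem_dn h]
    refine ⟨h0, ?_, ?_⟩
    · rw [hre, him]
      have e1 : 0 ≤ lx * (x2 * y1 + y2 * x1) := mul_nonneg h3 hl.le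
      have e2 : 0 ≤ lw * c * y2 := by positivity
      nlinarith
    · rw [hre, him]
      have e1 : 0 ≤ lx * (x2 * (c - y1) + y2 * (c - x1)) := mul_nonneg h3 hr.le
      have e2 : 0 ≤ lv * c * y2 := by positivity
      rw [hlv] at e2
      nlinarith

theorem dist_of {p q : ℂ} {d : ℝ} (hd : 0 < d)
    (h : (p.re - q.re) ^ 2 + (p.im - q.im) ^ 2 = d ^ 2) : dist p q = d := by
  rw [Complex.dist_eq_re_im, h, Real.sqrt_sq hd.le]

theorem quadb : QuadBStatement := by
  intro c a1 a2 b1 b2 L hQ hL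
  obtain ⟨x1, x2, y1, y2, h, e1, e2, e3, e4, e5⟩ := coords hQ hL
  have hc := h.c0
  refine ⟨0, (c : ℂ), ⟨x1, x2⟩, ⟨y1, -y2⟩, ?_, ?_, ?_, ?_, ?_, ?_, ?_, ?_, ?_, ?_⟩
  · exact dist_of hc (by simp)
  · exact dist_of hQ.ta.py (by simp only [Complex.ofReal_re, Complex.ofReal_im]; linarith)
  · exact dist_of hQ.ta.pz (by simp only [Complex.zero_re, Complex.zero_im]; linarith)
  · exact dist_of hQ.tb.py (by simp only [Complex.zero_re, Complex.zero_im]; linarith)
  · exact dist_of hQ.tb.pz (by simp only [Complex.ofReal_re, Complex.ofReal_im]; linarith)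
  · exact dist_of hL.ta.px (by linarith)
  · intro p hp q hq
    obtain ⟨s, h0, h1, h2⟩ := cross h hp hq
    exact ⟨s, h0, h1, by rw [seg_real hc]; exact h2⟩
  · rintro p ⟨hp, hq⟩
    obtain ⟨p0, p1, p2⟩ := (mem_up h).1 hp
    obtain ⟨q0, q1, q2⟩ := (mem_dn h).1 hq
    have him : p.im = 0 := le_antisymm q0 p0
    have hx := h.x0
    rw [him] at p1 p2
    refine ⟨p.re, ?_, ?_, ?_⟩
    · by_contra hneg
      push Not at hneg
      nlinarith
    · by_contra hneg
      push Not at hneg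
      nlinarith
    · rw [seg_real hc]
      exact Complex.ext (by simp) (by simp [him])
  · intro p hp
    obtain ⟨r, s, t, hr, hs, ht, hsum, hre, him⟩ := hull3.1 hp
    simp only [Complex.zero_re, Complex.zero_im] at hre him
    exact cover h (lv := t) (lw := 0) (lx := s) (ly := r) ht le_rfl hs hr (by linarith)
      (by linarith) (by linarith)
  · intro p hp
    obtain ⟨r, s, t, hr, hs, ht, hsum, hre, him⟩ := hull3.1 hp
    simp only [Complex.ofReal_re, Complex.ofReal_im] at hre him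
    exact cover h (lv := 0) (lw := t) (lx := r) (ly := s) le_rfl ht hr hs (by linarith)
      (by linarith) (by linarith)

end MSG.H47
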