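import Pool.Agent.Lib.MP_acafa7_al.MS.Iface2

namespace MSG.H47

open Classical

/-- law of cosines -/
theorem cos_ang {a b c : ℝ} (h : Tr a b c) :
    Real.cos (ang a b c) = (a ^ 2 + b ^ 2 - c ^ 2) / (2 * a * b) := by
  have ha := h.px
  have hb := h.py
  have hc := h.pz
  have h1 := h.hx
  have h2 := h.hy
  have h3 := h.hz
  have hab : 0 < 2 * a * b := by positivity
  unfold ang
  apply Real.cos_arccos
  · rw [le_div_iff₀ hab]
    nlinarith [mul_pos (sub_pos.2 h3) (by positivity : 0 < a + b + c)]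
  · rw [div_le_iff₀ hab]
    nlinarith [mul_pos (sub_pos.2 h1) (sub_pos.2 h2)]

theorem Tr.rot {a b c : ℝ} (h : Tr a b c) : Tr b c a :=
  ⟨h.py, h.pz, h.px, by linarith [h.hy], by linarith [h.hz], by linarith [h.hx]⟩

theorem Tr.swap {a b c : ℝ} (h : Tr a b c) : Tr b a c :=
  ⟨h.py, h.px, h.pz, h.hy, h.hx, by linarith [h.hz]⟩

theorem ang_nonneg (a b c : ℝ) : 0 ≤ ang a b c := Real.arccos_nonneg _

theorem ang_le_pi (a b c : ℝ) : ang a b c ≤ Real.pi := Real.arccos_le_pi _

theorem cos_add_nonpos {α β : ℝ} (_ : 0 ≤ α) (h1 : α ≤ Real.pi) (_ : 0 ≤ β)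
    (h3 : β ≤ Real.pi) (h : Real.pi ≤ α + β) : Real.cos α + Real.cos β ≤ 0 := by
  have : Real.cos β ≤ Real.cos (Real.pi - α) :=
    Real.cos_le_cos_of_nonneg_of_le_pi (by linarith) h3 (by linarith)
  rw [Real.cos_pi_sub] at this
  linarith

theorem side {r c r' : ℝ} (h : Tr r c r') :
    c = r * Real.cos (ang c r r') + r' * Real.cos (ang r' c r) := by
  have hr := h.px
  have hc := h.py
  have hr' := h.pz
  rw [cos_ang (Tr.swap h), cos_ang (Tr.swap (Tr.rot h))]
  field_simp
  ring

theorem fang : FanGStatement := by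
  intro k r c hk hT hang
  induction k, hk using Nat.le_induction with
  | base =>
    have := side (hT 0 (by norm_num))
    simpa using this.le
  | succ k hk ih =>
    have hk1 : 1 ≤ k := hk
    have ih' := ih (fun j hj => hT j (by omega)) (fun j hj => hang j (by omega))
    have hs := side (hT k (by omega))
    have ha := hang (k - 1) (by omega)
    have e1 : k - 1 + 1 = k := by omega
    have e2 : k - 1 + 2 = k + 1 := by omega
    rw [e1, e2] at ha
    have hneg := cos_add_nonpos (ang_nonneg _ _ _) (ang_le_pi _ _ _) (ang_nonneg _ _ _)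
      (ang_le_pi _ _ _) ha
    have hrk := (hT k (by omega)).px
    rw [Finset.sum_range_succ]
    have e3 : k + 1 - 1 = k := by omega
    rw [e3]
    have := mul_nonpos_of_nonneg_of_nonpos hrk.le hneg
    nlinarith
end MSG.H47
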